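import Pool.Agent.helper84.NR.SpecW

set_option autoImplicit false

/-!
# Row CLSW of project NRW (MP_133bfc_co)
-/

namespace Pool.Agent.helper84.NR

open scoped Classical
open Finset

theorem CLSW (hCXE : CXE_stmt) (hCLO : CLO_stmt) (hWLXW : WLXW_stmt) (hWLKW : WLKW_stmt) (hVXSW : VXSW_stmt) : CLSW_stmt := by
  intro V F _ _ M x y J hT q hq
  -- faces at `y` with a vertex on a face at `x` belong to `J`
  have hJa : ∀ v B, (∃ A, OnV M.toCyc A x ∧ OnV M.toCyc A v) → OnV M.toCyc B y →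
      OnV M.toCyc B v → B ∈ J := by
    rintro v B ⟨A, hAx, hAv⟩ hBy hBv
    refine hT.ja B hBy ?_
    obtain ⟨-, hrep, -, -, -⟩ := h_IDX V F M.toCyc B (st M y B)
    obtain ⟨k, hk, hkv⟩ := hrep v hBv
    have hw : ww M y B k = v := hkv
    refine ⟨k, ?_, hk, A, hAx, by rw [hw]; exact hAv⟩
    by_contra hk0
    have hk1 : k = 0 := by omega
    subst hk1
    have h0 := (h_WW0 V F M y B hBy).1
    exact hT.ne A ⟨hAx, by rw [← h0, hw]; exact hAv⟩
  have key : ∀ v, (∃ A', OnV M.toCyc A' x ∧ OnV M.toCyc A' v) → (∃ B ∈ J, OnV M.toCyc B v) →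
      ∀ e, v ∈ e → cx M x e → Has M x y J q e →
      ∃ B ∈ J, ∃ k1, gp M x y B k1 ∧ (v = ww M y B k1 ∨ ∃ k2, k1 < k2 ∧ sh M x y B k2 ∧
        (∀ i, k1 < i → i < k2 → ¬ sh M x y B i) ∧ v = ww M y B k2) ∧
        Has M x y J q s(ww M y B k1, ww M y B (k1 + 1)) := by
    intro v hv hJ e hve hcx hg
    obtain ⟨B, hB, k, hk, hvk, -, hg'⟩ := hVXSW V F M x y J hT q hq v hJ e hve hcx hg
    obtain ⟨k1, hk1, hno, hgp, hg1⟩ := hWLKW V F M x y J hT q hq B hB k hk hg'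
    obtain ⟨⟨a, hak, ha⟩, b, hkb, hb⟩ := hk
    refine ⟨B, hB, k1, hgp, ?_, hg1⟩
    rcases Sym2.mem_iff.1 hvk with h | h
    · have hs : sh M x y B k :=
        ⟨le_trans ha.1 hak, lt_trans hkb hb.2.1, by rw [← h]; exact hv⟩
      have h3 : k = k1 := by
        by_contra hne
        exact hno k (lt_of_le_of_ne hk1 (Ne.symm hne)) le_rfl hs
      left
      rw [h, h3]
    · have hs : sh M x y B (k + 1) :=
        ⟨by omega, lt_of_le_of_lt hkb hb.2.1, by rw [← h]; exact hv⟩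
      right
      exact ⟨k + 1, by omega, hs, fun i h1 h2 => hno i h1 (by omega), h⟩
  have hmem : ∀ B ∈ J, ∀ k, gp M x y B k → (⟨B, k⟩ : (_ : F) × ℕ) ∈ gaps M x y J := by
    intro B hB k hk
    unfold gaps
    rw [mem_sigma]
    refine ⟨hB, ?_⟩
    rw [mem_filter, mem_range]
    exact ⟨hk.1.2.1, hk⟩
  -- an edge of `C_X` with an end on a face at `y`
  obtain ⟨e0, ⟨hxe0, A0, hA0x, hA0e⟩, hHas0⟩ := hCXE V F M x y J hT q hq
  have hex : ∃ A e v, OnV M.toCyc A x ∧ OnE M.toCyc A e ∧ x ∉ e ∧ Has M x y J q e ∧ v ∈ e ∧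
      ∃ B, OnV M.toCyc B y ∧ OnV M.toCyc B v := by
    by_contra hcon
    apply hCLO V F M x y J hT q hq Set.univ ⟨A0, e0, Set.mem_univ _, hA0x, hA0e, hxe0, hHas0⟩
    intro A e v _ h1 h2 h3 h4 h5
    exact ⟨fun h6 => hcon ⟨A, e, v, h1, h2, h3, h4, h5, h6⟩, fun _ _ _ => Set.mem_univ _⟩
  obtain ⟨A, e, v, hAx, hAe, hxe, hHas, hve, B0, hB0y, hB0v⟩ := hex
  have hAv : OnV M.toCyc A v := by
    obtain ⟨k, hk⟩ := hAe
    rw [hk] at hve
    rcases Sym2.mem_iff.1 hve with h | h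
    · exact ⟨k, h.symm⟩
    · exact ⟨k + 1, h.symm⟩
  obtain ⟨Bg, hBg, kg, hgpg, -, hgg⟩ := key v ⟨A, hAx, hAv⟩
    ⟨B0, hJa v B0 ⟨A, hAx, hAv⟩ hB0y hB0v, hB0v⟩ e hve ⟨hxe, A, hAx, hAe⟩ hHas
  obtain ⟨hinj, -, hedge, -, -⟩ := h_IDX V F M.toCyc A (st M x A)
  obtain ⟨a, ha, rfl⟩ := hedge e hAe
  obtain ⟨hx0, hxl⟩ := h_WW0 V F M x A hAx
  have hnx : ∀ i, 1 ≤ i → i < M.len A → ww M x A i ≠ x := by
    intro i hi1 hi2 h
    have h3 : M.bd A (st M x A + i) = M.bd A (st M x A + 0) := h.trans hx0.symm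
    have h4 := hinj i 0 hi2 (by omega) h3
    omega
  have ha1 : 1 ≤ a := by
    by_contra hcon
    have h0 : a = 0 := by omega
    subst h0
    exact hxe (Sym2.mem_iff.2 (Or.inl hx0.symm))
  have ha2 : a + 1 < M.len A := by
    by_contra hcon
    have h0 : a + 1 = M.len A := by omega
    refine hxe (Sym2.mem_iff.2 (Or.inr ?_))
    have h3 : ww M x A (a + 1) = x := by rw [h0]; exact hxl
    exact h3.symm
  obtain ⟨i1, i2, h11, h12, h21, h22, hJ1, hJ2, hq1, hq2⟩ :=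
    hWLXW V F M x y J hT q hq A hAx a ha1 ha2 hHas
  have hA1 : OnV M.toCyc A (ww M x A i1) := ⟨_, rfl⟩
  have hA2 : OnV M.toCyc A (ww M x A i2) := ⟨_, rfl⟩
  have hne : ww M x A i1 ≠ ww M x A i2 := by
    intro h
    have := hinj i1 i2 (by omega) h22 h
    omega
  have hc1 : cx M x s(ww M x A i1, ww M x A (i1 + 1)) := by
    refine ⟨?_, A, hAx, st M x A + i1, rfl⟩
    intro h
    rcases Sym2.mem_iff.1 h with h | h
    · exact hnx i1 h11 (by omega) h.symm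
    · exact hnx (i1 + 1) (by omega) (by omega) h.symm
  have hc2 : cx M x s(ww M x A (i2 - 1), ww M x A i2) := by
    refine ⟨?_, A, hAx, st M x A + (i2 - 1), ?_⟩
    · intro h
      rcases Sym2.mem_iff.1 h with h | h
      · exact hnx (i2 - 1) (by omega) (by omega) h.symm
      · exact hnx i2 (by omega) (by omega) h.symm
    · have h3 : st M x A + (i2 - 1) + 1 = st M x A + i2 := by omega
      rw [h3]
      rfl
  by_cases hS1 : ∃ B, OnV M.toCyc B y ∧ OnV M.toCyc B (ww M x A i1)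
  · by_cases hS2 : ∃ B, OnV M.toCyc B y ∧ OnV M.toCyc B (ww M x A i2)
    · left
      have hJ1' : ∃ B ∈ J, OnV M.toCyc B (ww M x A i1) := by
        obtain ⟨B, hBy, hBv⟩ := hS1
        exact ⟨B, hJa _ B ⟨A, hAx, hA1⟩ hBy hBv, hBv⟩
      have hJ2' : ∃ B ∈ J, OnV M.toCyc B (ww M x A i2) := by
        obtain ⟨B, hBy, hBv⟩ := hS2
        exact ⟨B, hJa _ B ⟨A, hAx, hA2⟩ hBy hBv, hBv⟩
      obtain ⟨B1, hB1, k1, hgp1, hv1, hg1⟩ :=
        key _ ⟨A, hAx, hA1⟩ hJ1' _ (Sym2.mem_mk_left _ _) hc1 hq1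
      obtain ⟨B2, hB2, k2, hgp2, hv2, hg2⟩ :=
        key _ ⟨A, hAx, hA2⟩ hJ2' _ (Sym2.mem_mk_right _ _) hc2 hq2
      refine ⟨⟨B1, k1⟩, hmem B1 hB1 k1 hgp1, ⟨B2, k2⟩, hmem B2 hB2 k2 hgp2, ?_, hg1, hg2⟩
      intro heq
      obtain ⟨h3, h4⟩ := Sigma.mk.inj_iff.1 heq
      subst h3
      have h5 : k1 = k2 := eq_of_heq h4
      subst h5
      have hAB : A ≠ B1 := by
        rintro rfl
        exact hT.ne _ ⟨hAx, hT.jy _ hB1⟩
      obtain ⟨-, -, -, hadj, -⟩ := h_IDX V F M.toCyc B1 (st M y B1)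
      have fin : ∀ k, k1 < k → sh M x y B1 k → OnE M.toCyc B1 s(ww M y B1 k1, ww M y B1 k) →
          OnE M.toCyc A s(ww M y B1 k1, ww M y B1 k) → False := by
        intro k hk hs hb hA
        rcases hadj k1 k hk hs.2.1 hb with h | ⟨h, -⟩
        · subst h
          exact hgp1.2.2 ⟨A, hAx, hA⟩
        · have := hgp1.1.1
          omega
      rcases hv1 with hv1 | ⟨k3, hk3, hs3, hno3, hv1⟩
      · rcases hv2 with hv2 | ⟨k4, hk4, hs4, -, hv2⟩
        · exact hne (hv1.trans hv2.symm)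
        · have hp := M.poly A B1 hAB _ _ hne hA1 hA2 (by rw [hv1]; exact ⟨_, rfl⟩)
            (by rw [hv2]; exact ⟨_, rfl⟩)
          rw [hv1, hv2] at hp
          exact fin k4 hk4 hs4 hp.2.1 hp.1
      · rcases hv2 with hv2 | ⟨k4, hk4, hs4, hno4, hv2⟩
        · have hp := M.poly A B1 hAB _ _ hne hA1 hA2 (by rw [hv1]; exact ⟨_, rfl⟩)
            (by rw [hv2]; exact ⟨_, rfl⟩)
          rw [hv1, hv2, Sym2.eq_swap] at hp
          exact fin k3 hk3 hs3 hp.2.1 hp.1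
        · have h34 : k3 = k4 := by
            rcases lt_trichotomy k3 k4 with h | h | h
            · exact absurd hs3 (hno4 k3 hk3 h)
            · exact h
            · exact absurd hs4 (hno3 k4 hk4 h)
          subst h34
          exact hne (hv1.trans hv2.symm)
    · right
      refine ⟨⟨⟨Bg, kg⟩, hmem Bg hBg kg hgpg, hgg⟩, ww M x A i2, ?_, hS2, _,
        Sym2.mem_mk_right _ _, hc2, hq2⟩
      have hl : i2 + 1 = M.len A := hJ2.resolve_left hS2
      refine ⟨A, st M x A + i2, ?_⟩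
      have h6 : M.bd A (st M x A + i2 + 1) = x := by
        rw [show st M x A + i2 + 1 = st M x A + M.len A by omega]
        exact hxl
      rw [h6, Sym2.eq_swap]
      rfl
  · right
    refine ⟨⟨⟨Bg, kg⟩, hmem Bg hBg kg hgpg, hgg⟩, ww M x A i1, ?_, hS1, _,
      Sym2.mem_mk_left _ _, hc1, hq1⟩
    have hl : i1 = 1 := hJ1.resolve_left hS1
    refine ⟨A, st M x A + 0, ?_⟩
    have h6 : M.bd A (st M x A + 0) = x := hx0
    rw [h6, hl]
    rfl

end Pool.Agent.helper84.NR
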